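import Pool.Agent.W2helper35.QF.Stm

/-!
# Piece EQ of project QF: the equations of the Mumford-Tate group
-/

set_option autoImplicit false

namespace Pool.Agent.W2helper71.QF

open Module TensorProduct Pool.Agent.W528.ZC Pool.Agent.H204R3.GP Pool.Agent.W516.MTD
open Pool.Agent.W2helper35.QF

noncomputable section

lemma h01' : ((0 : Fin 1), (0 : Fin 2)) ≠ (0, 1) := by decide

/-- a bilinear form as a multilinear form -/
def ml {R M : Type} [CommRing R] [AddCommGroup M] [Module R M] (B : M →ₗ[R] M →ₗ[R] R) :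
    MultilinearMap R (fun _ : Fin 1 × Fin 2 => M) R where
  toFun v := B (v (0, 0)) (v (0, 1))
  map_update_add' := by
    intro _ v i x y
    obtain ⟨a, c⟩ := i
    have ha : a = 0 := Subsingleton.elim _ _
    subst ha
    have h01 := h01'
    fin_cases c
    · change B (Function.update v (0, 0) (x + y) (0, 0)) (Function.update v (0, 0) (x + y) (0, 1)) =
        B (Function.update v (0, 0) x (0, 0)) (Function.update v (0, 0) x (0, 1)) +
        B (Function.update v (0, 0) y (0, 0)) (Function.update v (0, 0) y (0, 1))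
      simp only [Function.update_self, Function.update_of_ne h01.symm, map_add,
        LinearMap.add_apply]
    · change B (Function.update v (0, 1) (x + y) (0, 0)) (Function.update v (0, 1) (x + y) (0, 1)) =
        B (Function.update v (0, 1) x (0, 0)) (Function.update v (0, 1) x (0, 1)) +
        B (Function.update v (0, 1) y (0, 0)) (Function.update v (0, 1) y (0, 1))
      simp only [Function.update_self, Function.update_of_ne h01, map_add]
  map_update_smul' := by
    intro _ v i r x
    obtain ⟨a, c⟩ := i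
    have ha : a = 0 := Subsingleton.elim _ _
    subst ha
    have h01 := h01'
    fin_cases c
    · change B (Function.update v (0, 0) (r • x) (0, 0)) (Function.update v (0, 0) (r • x) (0, 1)) =
        r • B (Function.update v (0, 0) x (0, 0)) (Function.update v (0, 0) x (0, 1))
      simp only [Function.update_self, Function.update_of_ne h01.symm, map_smul,
        LinearMap.smul_apply]
    · change B (Function.update v (0, 1) (r • x) (0, 0)) (Function.update v (0, 1) (r • x) (0, 1)) =
        r • B (Function.update v (0, 1) x (0, 0)) (Function.update v (0, 1) x (0, 1))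
      simp only [Function.update_self, Function.update_of_ne h01, map_smul]

lemma ml_apply {R M : Type} [CommRing R] [AddCommGroup M] [Module R M]
    (B : M →ₗ[R] M →ₗ[R] R) (v : Fin 1 × Fin 2 → M) : ml B v = B (v (0, 0)) (v (0, 1)) := rfl

/-- pairs as functions -/
def pr {ι : Type} : (Fin 1 × Fin 2 → ι) ≃ ι × ι where
  toFun i := (i (0, 0), i (0, 1))
  invFun p := fun l => if l.2 = 0 then p.1 else p.2
  left_inv i := by
    funext l
    obtain ⟨a, c⟩ := l
    have ha : a = 0 := Subsingleton.elim _ _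
    subst ha
    fin_cases c <;> simp
  right_inv p := by simp

lemma hodge_ml {W T : Type} [AddCommGroup W] [Module ℚ W] [AddCommGroup T] [Module ℂ T]
    (per : W →+ T) (ω₀ : W →ₗ[ℚ] W →ₗ[ℚ] ℚ) (h : IsHodgeBilinear per ω₀) :
    IsHodgeTensor per (ml ω₀) := by
  obtain ⟨E, h1, h2⟩ := h
  refine ⟨ml E, fun v => ?_, fun z hz u => ?_⟩
  · rw [ml_apply, ml_apply, h1]
  · rw [ml_apply, ml_apply, h2 z hz]

lemma sum_pr {ι : Type} [Fintype ι] [DecidableEq ι] {L : Type} [Field L] (g : Matrix ι ι L)
    (F : ι → ι → L) (i : Fin 1 × Fin 2 → ι) :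
    ∑ i' : Fin 1 × Fin 2 → ι, (∏ l, g (i' l) (i l)) * F (i' (0, 0)) (i' (0, 1)) =
      ∑ x, ∑ y, g x (i (0, 0)) * g y (i (0, 1)) * F x y := by
  rw [← Fintype.sum_prod_type' (f := fun x y => g x (i (0, 0)) * g y (i (0, 1)) * F x y)]
  refine Fintype.sum_equiv pr _ _ fun i' => ?_
  rw [Fintype.prod_prod_type]
  simp only [Fin.prod_univ_two, Finset.univ_unique, Fin.default_eq_zero, Finset.prod_singleton,
    Fin.isValue, pr, Equiv.coe_fn_mk]

/-- EQ -/
theorem p_eq : P_EQ := by
  intro W T _ _ _ _ per ω₀ hω hnd ι _ _ _ b L _ _ g hg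
  classical
  -- the value of an equation
  have hval : ∀ (m : ℕ) (φ : MultilinearMap ℚ (fun _ : Fin m × Fin 2 => W) ℚ)
      (i : Fin m × Fin 2 → ι) (p q : ι),
      MvPolynomial.aeval (fun p : ι × ι => g p.1 p.2)
        ((∑ i' : Fin m × Fin 2 → ι, (∏ l, MvPolynomial.X (i' l, i l)) *
          MvPolynomial.C (φ fun l => b (i' l))) * MvPolynomial.C (ω₀ (b p) (b q)) ^ m -
        (∑ x : ι, ∑ y : ι, MvPolynomial.X (x, p) * MvPolynomial.X (y, q) *
          MvPolynomial.C (ω₀ (b x) (b y))) ^ m * MvPolynomial.C (φ fun l => b (i l)) :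
          MvPolynomial (ι × ι) ℚ) =
      (∑ i' : Fin m × Fin 2 → ι, (∏ l, g (i' l) (i l)) * algebraMap ℚ L (φ fun l => b (i' l))) *
        algebraMap ℚ L (ω₀ (b p) (b q)) ^ m -
        (∑ x, ∑ y, g x p * g y q * algebraMap ℚ L (ω₀ (b x) (b y))) ^ m *
          algebraMap ℚ L (φ fun l => b (i l)) := by
    intro m φ i p q
    simp only [map_sub, map_mul, map_sum, map_prod, map_pow, MvPolynomial.aeval_X,
      MvPolynomial.aeval_C]
  have hml := hodge_ml per ω₀ hω
  have hsum : ∀ p q : ι, ∑ i' : Fin 1 × Fin 2 → ι, (∏ l, g (i' l) (pr.symm (p, q) l)) *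
      algebraMap ℚ L (ml ω₀ fun l => b (i' l)) =
      ∑ x, ∑ y, g x p * g y q * algebraMap ℚ L (ω₀ (b x) (b y)) := by
    intro p q
    exact sum_pr g (fun x y => algebraMap ℚ L (ω₀ (b x) (b y))) (pr.symm (p, q))
  have hval2 : ∀ p q : ι, algebraMap ℚ L (ml ω₀ fun l => b (pr.symm (p, q) l)) =
      algebraMap ℚ L (ω₀ (b p) (b q)) := fun p q => rfl
  constructor
  · intro hZ
    obtain ⟨p⟩ := ‹Nonempty ι›
    obtain ⟨q, hq⟩ : ∃ q, ω₀ (b p) (b q) ≠ 0 := by
      by_contra hcon
      push Not at hcon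
      refine b.ne_zero p (hnd (b p) fun v => ?_)
      have h1 : ω₀ (b p) = 0 := b.ext fun q => by rw [hcon q]; rfl
      rw [h1]; rfl
    have hq' : algebraMap ℚ L (ω₀ (b p) (b q)) ≠ 0 := by
      rw [Ne, map_eq_zero]
      exact hq
    set G : ι → ι → L := fun p q => ∑ x, ∑ y, g x p * g y q * algebraMap ℚ L (ω₀ (b x) (b y))
      with hG
    have h1 : ∀ (m : ℕ) (φ : MultilinearMap ℚ (fun _ : Fin m × Fin 2 => W) ℚ),
        IsHodgeTensor per φ → ∀ (i : Fin m × Fin 2 → ι) (p q : ι),
        (∑ i' : Fin m × Fin 2 → ι, (∏ l, g (i' l) (i l)) * algebraMap ℚ L (φ fun l => b (i' l))) *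
        algebraMap ℚ L (ω₀ (b p) (b q)) ^ m = G p q ^ m * algebraMap ℚ L (φ fun l => b (i l)) := by
      intro m φ hφ i p q
      have := hZ _ ⟨m, φ, i, p, q, hφ, rfl⟩
      rw [hval m φ i p q] at this
      exact sub_eq_zero.mp this
    have h2 : ∀ i j, G i j * algebraMap ℚ L (ω₀ (b p) (b q)) =
        G p q * algebraMap ℚ L (ω₀ (b i) (b j)) := by
      intro i j
      have := h1 1 (ml ω₀) hml (pr.symm (i, j)) p q
      rwa [hsum, hval2, pow_one, pow_one] at this
    set c := G p q / algebraMap ℚ L (ω₀ (b p) (b q)) with hc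
    have hcpq : G p q = c * algebraMap ℚ L (ω₀ (b p) (b q)) := by
      rw [hc, div_mul_cancel₀ _ hq']
    have h3 : ∀ i j, G i j = c * algebraMap ℚ L (ω₀ (b i) (b j)) := by
      intro i j
      have := h2 i j
      rw [hcpq] at this
      refine mul_right_cancel₀ hq' ?_
      rw [this]
      ring
    refine ⟨c, ?_, fun m φ hφ i => ?_⟩
    · intro hc0
      let Ψ : Matrix ι ι L := Matrix.of fun i j => algebraMap ℚ L (ω₀ (b i) (b j))
      have h4 : g.transpose * Ψ * g = 0 := by
        ext i j
        have h5 : G i j = 0 := by rw [h3, hc0, zero_mul]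
        rw [Matrix.mul_apply, Matrix.zero_apply, ← h5]
        simp only [hG, Matrix.mul_apply, Matrix.transpose_apply, Ψ, Matrix.of_apply,
          Finset.sum_mul]
        rw [Finset.sum_comm]
        refine Finset.sum_congr rfl fun x _ => Finset.sum_congr rfl fun y _ => ?_
        ring
      have hu : IsUnit g := (Matrix.isUnit_iff_isUnit_det g).mpr hg
      have hut : IsUnit g.transpose := (Matrix.isUnit_iff_isUnit_det _).mpr (by
        rw [Matrix.det_transpose]; exact hg)
      have h6 : g.transpose * Ψ = 0 := by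
        have := (hu.mul_left_eq_zero).mp h4
        exact this
      have h7 : Ψ = 0 := (hut.mul_right_eq_zero).mp h6
      have h8 : Ψ p q = 0 := by rw [h7]; rfl
      exact hq' h8
    · have h4 := h1 m φ hφ i p q
      rw [hcpq, mul_pow] at h4
      refine mul_right_cancel₀ (pow_ne_zero m hq') ?_
      rw [h4]
      ring
  · rintro ⟨c, hc, h⟩ f ⟨m, φ, i, p, q, hφ, rfl⟩
    rw [hval, h m φ hφ i]
    have h1 := h 1 (ml ω₀) hml (pr.symm (p, q))
    rw [hsum, hval2, pow_one] at h1
    rw [h1]
    ring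

end

end Pool.Agent.W2helper71.QF
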